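import Mathlib
import Pool.Agent.H549LC.NotLC

set_option autoImplicit false

/-!
# Non-evasive balls that are not locally constructible, in every dimension at least four

The definitions `IsCx`, `realization`, `IsBall`, `IsFacet`, `AtMostTwo`, `SameFace`, `NonEvasive`
are in `Pool.Agent.H933R3.Defs`, the definitions `TreeStage`, `GlueStage`, `IsTreeLC` are in
`Pool.Agent.Y364.E3.Tree`.

The example in dimension `3 + k` is the join `KK k` of a simplex with `k ≥ 1` vertices and a certain
3-ball with 11 vertices, all on the boundary, and 35 tetrahedra (`Bl` in
`Pool.Agent.H549LC.Chain`).  It is a cone, hence non-evasive.  In the 3-ball every interior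
triangle has at least two interior edges (the dual 2-complex has no free edge, as for the house
with two rooms), and there are 61 interior triangles and 27 interior edges.  A local gluing closes
the star of a face of codimension two; by the Euler characteristic (`61 = 35 - 1 + 27`) the star of
every interior face of codimension two has to be closed by one of the gluings, and the last gluing
is impossible.
-/

namespace Pool.Agent.Results.MP_9638d9_co.NonEvasiveNotLC

open Pool.Agent.H933R3 Pool.Agent.Y364.E3 Pool.Agent.H549LC

/-- In every dimension `d ≥ 4` there is a triangulated `d`-ball, with at most `d + 8` vertices,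
that is non-evasive but not locally constructible. -/
theorem result (d : ℕ) (hd : 4 ≤ d) : ∃ K : Finset (Finset (Fin (d + 8))),
    IsCx K ∧ (∀ F, IsFacet K F → F.card = d + 1) ∧ AtMostTwo d K ∧
      IsBall d K ∧ NonEvasive K ∧ ¬ IsTreeLC d K := by
  obtain ⟨k, rfl⟩ := Nat.exists_eq_add_of_le hd
  have h1 : 4 + k + 8 = 11 + (k + 1) := by omega
  have h2 : 4 + k = 3 + (k + 1) := by omega
  rw [h1, h2]
  exact ⟨KK (k + 1), isCx_KK _, pure_KK _, atMostTwo_KK _, isBall_KK _, nonEvasive_KK k, not_LC _⟩

end Pool.Agent.Results.MP_9638d9_co.NonEvasiveNotLC
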